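import Mathlib
import Pool.Agent.H26.FGLow
import Pool.Agent.H26.FGUp

set_option autoImplicit false

namespace Pool.Agent.Results.MP_15e198_al.BallFormula

/-- The ball of radius `n` in the free group of rank `r`
(`FreeGroup.norm` is the length of the reduced word). -/
def Ball (r n : ℕ) : Set (FreeGroup (Fin r)) := {g | g.norm ≤ n}

/-- `X` freely generates a subgroup: the homomorphism from the free group on the set `X`
to the ambient group sending each element of `X` to itself is injective. -/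
def FreelyGenerates {r : ℕ} (X : Set (FreeGroup (Fin r))) : Prop :=
  Function.Injective (FreeGroup.lift (fun x : X => (x : FreeGroup (Fin r))))

/-- The cardinalities of the (finite) subsets of the ball that freely generate a subgroup. -/
def Sizes (r n : ℕ) : Set ℕ :=
  {k | ∃ X : Set (FreeGroup (Fin r)), X ⊆ Ball r n ∧ FreelyGenerates X ∧ X.Finite ∧ X.ncard = k}

/-- `N(r,0)=0`, `N(r,2m+1)=r(2r-1)^m` and `N(r,2m+2)=(2r-1)^(m+1)` for all `r ≥ 1`, `m ≥ 0`. -/
theorem result : ∀ r : ℕ, 1 ≤ r →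
    (∀ n, (Ball r n).Finite) ∧
    IsGreatest (Sizes r 0) 0 ∧
    ∀ m : ℕ, IsGreatest (Sizes r (2 * m + 1)) (r * (2 * r - 1) ^ m) ∧
      IsGreatest (Sizes r (2 * m + 2)) ((2 * r - 1) ^ (m + 1)) := by
  classical
  intro r hr
  have conv : ∀ (n k : ℕ), (∃ (ι : Type) (_ : Fintype ι) (a : ι → FreeGroup (Fin r)),
      Fintype.card ι = k ∧ (∀ i, (a i).norm ≤ n) ∧ Function.Injective (FreeGroup.lift a)) →
      k ∈ Sizes r n := by
    rintro n k ⟨ι, _, a, h1, h2, h3⟩
    obtain ⟨h4, h5⟩ := Pool.Agent.H26.FG.to_set a h3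
    refine ⟨Set.range a, ?_, h5, Set.finite_range a, by rw [h4, h1]⟩
    rintro _ ⟨i, rfl⟩
    exact h2 i
  refine ⟨fun n => Pool.Agent.H26.FG.ball_finite n, ⟨?_, ?_⟩, fun m => ⟨⟨?_, ?_⟩, ⟨?_, ?_⟩⟩⟩
  · apply conv
    refine ⟨Empty, inferInstance, fun e => e.elim, by simp, fun e => e.elim, ?_⟩
    intro x y _
    exact Subsingleton.elim x y
  · rintro k ⟨X, hX, hfree, hfin, rfl⟩
    have : X = ∅ := by
      rw [Set.eq_empty_iff_forall_notMem]
      intro x hx
      have h1 : x = 1 := by
        have h2 : x.norm ≤ 0 := hX hx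
        exact FreeGroup.norm_eq_zero.mp (by omega)
      have h3 : FreeGroup.of (⟨x, hx⟩ : X) = 1 := by
        apply hfree
        rw [FreeGroup.lift_apply_of, map_one]
        exact h1
      exact FreeGroup.of_ne_one _ h3
    rw [this]; simp
  · apply conv
    by_cases h1 : r = 1
    · obtain ⟨ι, h2, a, h3, h4, h5⟩ := Pool.Agent.H26.FG.triv_low hr (2 * m + 1) (by omega) h1
      exact ⟨ι, h2, a, by rw [h3, h1]; simp, h4, h5⟩
    · exact Pool.Agent.H26.FG.odd_low (by omega) m
  · rintro k ⟨X, hX, hfree, hfin, rfl⟩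
    have : Fintype X := hfin.fintype
    have := Pool.Agent.H26.FG.odd_up hr m (fun x : X => (x : FreeGroup (Fin r)))
      (fun x => hX x.2) hfree
    rwa [← Nat.card_eq_fintype_card] at this
  · apply conv
    by_cases h1 : r = 1
    · obtain ⟨ι, h2, a, h3, h4, h5⟩ := Pool.Agent.H26.FG.triv_low hr (2 * m + 2) (by omega) h1
      exact ⟨ι, h2, a, by rw [h3, h1]; simp, h4, h5⟩
    · exact Pool.Agent.H26.FG.even_low (by omega) m
  · rintro k ⟨X, hX, hfree, hfin, rfl⟩
    have : Fintype X := hfin.fintype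
    have := Pool.Agent.H26.FG.even_up hr (m + 1) (fun x : X => (x : FreeGroup (Fin r)))
      (fun x => hX x.2) hfree
    rwa [← Nat.card_eq_fintype_card] at this

end Pool.Agent.Results.MP_15e198_al.BallFormula
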